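import Mathlib

open MeasureTheory Filter Topology Set
open scoped ENNReal

namespace Pool.Agent.Results.MP_b21e06_an.Mobile

/-- the `n`-th guess of the strategy with ratios `lam` against the fixed number `h`, from interval `[a, b]` and count `k` -/
noncomputable def G (lam : ℤ → ℝ) (h : ℝ) : ℕ → ℝ → ℝ → ℤ → ℝ
  | 0, a, b, k => lam k * a + (1 - lam k) * b
  | n + 1, a, b, k => if lam k * a + (1 - lam k) * b < h then G lam h n (lam k * a + (1 - lam k) * b) b (k + 1)
      else G lam h n a (lam k * a + (1 - lam k) * b) (k - 1)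

/-- a pure hider strategy (past guesses, newest first, to the next position) respects `[0,1]` and all answers -/
def Legal (τ : List ℝ → ℝ) : Prop := (∀ l, τ l ∈ Icc 0 1) ∧
  ∀ l g m, (g < τ l → g < τ (m ++ g :: l)) ∧ (τ l < g → τ (m ++ g :: l) < g)

/-- past guesses and answers after `n` rounds -/
noncomputable def play (s : List Bool → ℝ) (τ : List ℝ → ℝ) : ℕ → List ℝ × List Bool
  | 0 => ([], [])
  | n + 1 => (s (play s τ n).2 :: (play s τ n).1, decide (s (play s τ n).2 < τ (play s τ n).1) :: (play s τ n).2)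

open Classical in
/-- the payoff to the hider; a tie is scored 0 -/
noncomputable def pay (s : List Bool → ℝ) (τ : List ℝ → ℝ) : ℝ≥0∞ :=
  if ∃ n, s (play s τ n).2 = τ (play s τ n).1 then 0
  else if h : ∃ x, Tendsto (fun n => τ (play s τ n).1) atTop (𝓝 x) then
    ∑' n, .ofReal |s (play s τ n).2 - h.choose| else ⊤

lemma aff (lam : ℤ → ℝ) (t c : ℝ) {L : ℝ} (hL : 0 < L) (n : ℕ) : ∀ a b k,
    G lam (c + L * t) n (c + L * a) (c + L * b) k = c + L * G lam t n a b k := by
  have e : ∀ a b k, lam k * (c + L * a) + (1 - lam k) * (c + L * b) = c + L * (lam k * a + (1 - lam k) * b) :=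
    fun _ _ _ => by ring
  induction n with
  | zero => exact e
  | succ n ih =>
    intro a b k
    simp only [G, e, add_lt_add_iff_left, mul_lt_mul_iff_right₀ hL, ih]
    split_ifs <;> rfl

def V (lam : ℤ → ℝ) (k : ℤ) (u : ℝ) : Prop :=
  ∃ Z : Set ℝ, Z.Countable ∧ ∀ h ∈ Ioo 0 1 \ Z, HasSum (fun n => |G lam h n 0 1 k - h|) (u - k * h)

lemma V.ge {lam k u} (h : V lam k u) : 0 ≤ u ∧ k ≤ u := by
  obtain ⟨Z, z, h⟩ := h
  have c : IsClosed {t : ℝ | k * t ≤ u} := isClosed_le (by fun_prop) (by fun_prop)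
  have := c.closure_subset_iff.2 (((z.dense_compl ℝ).open_subset_closure_inter (isOpen_Ioo (a := 0) (b := 1))).trans
    (c.closure_subset_iff.2 fun t ht => sub_nonneg.1 ((h t ht).nonneg fun _ => abs_nonneg _)))
  rw [closure_Ioo zero_ne_one] at this
  exact ⟨by simpa using this (left_mem_Icc.2 zero_le_one), by simpa using this (right_mem_Icc.2 zero_le_one)⟩

lemma V.sub {lam k u} (h : V lam k u) (c L : ℝ) (hL : 0 < L) (j : ℤ) (h1 : 0 ≤ c) (h2 : c + L ≤ 1) (w : ℝ)
    (e : ∀ t ∈ Ioo (0 : ℝ) 1, (∀ n, G lam (c + L * t) (n + 1) 0 1 k = G lam (c + L * t) n c (c + L) j) ∧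
      u - k * (c + L * t) - |1 - lam k - (c + L * t)| = L * (w - j * t)) : V lam j w := by
  obtain ⟨Z, z, h⟩ := h
  refine ⟨(fun t => c + L * t) ⁻¹' Z, z.preimage_of_injOn fun a _ b _ e => by simpa [hL.ne'] using e, fun t ht => ?_⟩
  have := (hasSum_nat_add_iff' 1).2 (h (c + L * t) ⟨⟨by nlinarith [ht.1.1], by nlinarith [ht.1.2]⟩, ht.2⟩)
  have a := fun n => aff lam t c hL n 0 1 j
  simp only [mul_zero, add_zero, mul_one] at a
  simp only [(e t ht.1).1, a] at this
  simp only [Finset.sum_range_one, G, mul_zero, zero_add, mul_one, (e t ht.1).2, add_sub_add_left_eq_sub,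
    ← mul_sub, abs_mul, abs_of_pos hL] at this
  exact (hasSum_mul_left_iff hL.ne').1 this

lemma exu {lam : ℤ → ℝ} (hl : ∀ k, lam k ∈ Ioo 0 1) {v} (h : V lam 0 v) : ∃ u : ℤ → ℝ, u 0 = v ∧ ∀ k,
    0 ≤ u k ∧ k ≤ u k ∧ u k = k * (1 - lam k) + lam k * u (k + 1) ∧ u k = (1 - lam k) * (1 + u (k - 1)) := by
  have up : ∀ k u, V lam k u → V lam (k + 1) ((u - k * (1 - lam k)) / lam k) := fun k u h =>
    h.sub (1 - lam k) (lam k) (hl k).1 _ (by linarith [(hl k).2]) (by simp) _ fun t ht => by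
      have := mul_pos (hl k).1 ht.1
      have := (hl k).1.ne'
      exact ⟨fun n => by simp [G, *], by rw [abs_of_nonpos (by linarith)]; push_cast; field_simp; ring⟩
  have dn : ∀ k u, V lam k u → V lam (k - 1) (u / (1 - lam k) - 1) := fun k u h =>
    h.sub 0 (1 - lam k) (by linarith [(hl k).2]) _ le_rfl (by linarith [(hl k).1]) _ fun t ht => by
      have a := sub_pos.2 (hl k).2
      have : (1 - lam k) * t ≤ 1 - lam k := by nlinarith [ht.2]
      exact ⟨fun n => by simp [G, this.not_gt], by rw [abs_of_nonneg (by linarith)]; push_cast; field_simp; ring⟩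
  have un : ∀ k u w, V lam k u → V lam k w → u = w := fun k u w ⟨Z, z, a⟩ ⟨Y, y, b⟩ => by
    obtain ⟨t, h1, h2⟩ := ((z.union y).dense_compl ℝ).inter_open_nonempty _ isOpen_Ioo (nonempty_Ioo.2 zero_lt_one)
    simpa using (a t ⟨h1, fun c => h2 (.inl c)⟩).unique (b t ⟨h1, fun c => h2 (.inr c)⟩)
  have : ∀ k, ∃ u, V lam k u := fun k => by
    induction k using Int.induction_on with
    | zero => exact ⟨_, h⟩
    | succ k ih => exact ih.elim fun u h => ⟨_, up _ u h⟩
    | pred k ih => exact ih.elim fun u h => ⟨_, dn _ u h⟩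
  choose u hu using this
  refine ⟨u, un _ _ _ (hu 0) h, fun k => ⟨(hu k).ge.1, (hu k).ge.2, ?_, ?_⟩⟩
  · rw [un _ _ _ (hu _) (up k _ (hu k)), mul_div_cancel₀ _ (hl k).1.ne']; ring
  · rw [un _ _ _ (hu _) (dn k _ (hu k)), add_sub_cancel, mul_div_cancel₀ _ (sub_pos.2 (hl k).2).ne']

abbrev S := ℝ × ℝ × ℤ
noncomputable def upd (x : S) (g : ℝ) (b : Bool) : S :=
  if b then (max x.1 g, x.2.1, x.2.2 + 1) else (x.1, min x.2.1 g, x.2.2 - 1)
variable (N : ℕ) (r : ℕ → ℤ → ℝ)
noncomputable def pos (n : ℕ) (x : S) : ℝ := x.1 + r (min n N) x.2.2 * (x.2.1 - x.1)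
noncomputable def st : List ℝ → S
  | [] => (0, 1, 0)
  | g :: l => if l.length < N then upd (st l) g (decide (g < pos N r l.length (st l))) else st l
noncomputable def hid (l : List ℝ) : ℝ := pos N r l.length (st N r l)
noncomputable def st' (s : List Bool → ℝ) : List Bool → S
  | [] => (0, 1, 0)
  | b :: w => if w.length < N then upd (st' s w) (s w) b else st' s w

lemma pl (s) (n : ℕ) : (play s (hid N r) n).1.length = n ∧ (play s (hid N r) n).2.length = n ∧
    st N r (play s (hid N r) n).1 = st' N s (play s (hid N r) n).2 := by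
  induction n with
  | zero => simp [play, st, st']
  | succ n ih => simp only [play, st, st', List.length_cons, ih.1, ih.2.1, ← ih.2.2, true_and]; simp only [hid, ih.1]

variable {r} (hr : ∀ n k, r n k ∈ Ioo (0 : ℝ) 1)
include hr
lemma mid {x : S} (h : x.1 < x.2.1) (n) : x.1 < pos N r n x ∧ pos N r n x < x.2.1 := by
  have := hr (min n N) x.2.2
  unfold pos; constructor <;> nlinarith [this.1, this.2]
lemma stp (l g) (h : (st N r l).1 < (st N r l).2.1) : (st N r (g :: l)).1 < (st N r (g :: l)).2.1 ∧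
    (st N r l).1 ≤ (st N r (g :: l)).1 ∧ (st N r (g :: l)).2.1 ≤ (st N r l).2.1 := by
  have := mid N hr h l.length
  simp only [st, upd, decide_eq_true_eq]
  split_ifs with a b
  exacts [⟨max_lt h (b.trans this.2), le_max_left _ _, le_rfl⟩,
    ⟨lt_min h (this.1.trans_le (not_lt.1 b)), le_rfl, min_le_left _ _⟩, ⟨h, le_rfl, le_rfl⟩]
lemma nest (l m) (h : (st N r l).1 < (st N r l).2.1) : (st N r (m ++ l)).1 < (st N r (m ++ l)).2.1 ∧
    (st N r l).1 ≤ (st N r (m ++ l)).1 ∧ (st N r (m ++ l)).2.1 ≤ (st N r l).2.1 := by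
  induction m with
  | nil => exact ⟨h, le_rfl, le_rfl⟩
  | cons g m ih => have := stp N hr _ g ih.1; exact ⟨this.1, ih.2.1.trans this.2.1, this.2.2.trans ih.2.2⟩
lemma ok (l) : (st N r l).1 < (st N r l).2.1 ∧ 0 ≤ (st N r l).1 ∧ (st N r l).2.1 ≤ 1 := by
  simpa [st] using nest N hr [] l (by simp [st])
omit hr in
lemma frz (l m) (h : N ≤ l.length) : hid N r (m ++ l) = hid N r l := by
  have : st N r (m ++ l) = st N r l := by
    induction m with
    | nil => rfl
    | cons g m ih => rw [List.cons_append, st, if_neg (by simp; omega), ih]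
  simp [hid, pos, this, h, h.trans (Nat.le_add_left _ _)]
lemma leg : Legal (hid N r) := by
  have p := fun l => mid N hr (ok N hr l).1 l.length
  refine ⟨fun l => ⟨(ok N hr l).2.1.trans (p l).1.le, (p l).2.le.trans (ok N hr l).2.2⟩, fun l g m => ?_⟩
  rcases lt_or_ge l.length N with c | c
  · have := nest N hr _ m (ok N hr (g :: l)).1
    refine ⟨fun h => (le_trans ?_ this.2.1).trans_lt (p _).1, fun h => (p _).2.trans_le (this.2.2.trans ?_)⟩
    · simp [st, upd, c, show g < pos N r l.length (st N r l) from h]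
    · simp [st, upd, c, show ¬g < pos N r l.length (st N r l) from h.not_gt]
  · rw [show m ++ g :: l = m ++ [g] ++ l by simp, frz N l _ c]; exact ⟨id, id⟩

lemma inv {lam u : ℤ → ℝ} {δ : ℝ} (hδ : 0 ≤ δ)
    (hu : ∀ k, 0 ≤ u k ∧ k ≤ u k ∧ u k = k * (1 - lam k) + lam k * u (k + 1) ∧ u k = (1 - lam k) * (1 + u (k - 1)))
    (h2 : ∀ n < N, ∀ k, 1 - lam k ≤ r n k ∧ (r n k - (1 - lam k)) * (u (k + 1) - k) ≤ δ) (l : List ℝ) (hl : l.length ≤ N) :
    |((st N r l).2.2 : ℝ)| ≤ l.length ∧ ∀ h ∈ Icc (st N r l).1 (st N r l).2.1,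
      u 0 - l.length * δ - ((st N r l).2.1 - (st N r l).1) * u (st N r l).2.2 + (st N r l).2.2 * (h - (st N r l).1) ≤
        (l.map (|· - h|)).sum ∧
      (l.length + (st N r l).2.2) * (h - (st N r l).1) + (l.length - (st N r l).2.2) * ((st N r l).2.1 - h) ≤
        2 * (l.map (|· - h|)).sum := by
  induction l with
  | nil => simp [st]
  | cons g l ih =>
    have c : l.length < N := hl
    obtain ⟨i0, ih⟩ := ih c.le
    obtain ⟨o1, o2, o3⟩ := ok N hr l
    have m := mid N hr o1 l.length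
    obtain ⟨r1, r2⟩ := h2 _ c (st N r l).2.2
    simp only [st, upd, c, if_true, decide_eq_true_eq, List.length_cons, List.map_cons, List.sum_cons]
    simp only [pos, min_eq_left c.le] at m ⊢
    generalize st N r l = x at *
    obtain ⟨a, b, k⟩ := x
    obtain ⟨u1, u2, u3, u4⟩ := hu k
    have u5 := (hu (k + 1)).2.1
    have u6 := (hu (k - 1)).1
    rw [abs_le] at i0
    generalize r l.length k = ρ at *
    split_ifs with e <;> simp only at * <;> push_cast at * <;> refine ⟨abs_le.2 ⟨by linarith, by linarith⟩, fun h hh => ?_⟩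
    · obtain ⟨j1, j2⟩ := ih h ⟨(le_max_left _ _).trans hh.1, hh.2⟩
      have t : h - max a g ≤ |g - h| := by linarith [neg_le_abs (g - h), le_max_right a g]
      have t2 : max a g ≤ a + ρ * (b - a) := max_le m.1.le e.le
      have t3 := le_max_left a g
      generalize max a g = a' at *
      refine ⟨?_, by nlinarith [abs_nonneg (g - h)]⟩
      have := mul_le_mul_of_nonneg_left r2 (sub_pos.2 o1).le
      have := mul_le_mul_of_nonneg_right t2 (show 0 ≤ u (k + 1) - k by linarith)
      have := mul_le_mul_of_nonneg_right (show b - a ≤ 1 by linarith) hδ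
      rw [u3] at j1
      nlinarith
    · obtain ⟨j1, j2⟩ := ih h ⟨hh.1, hh.2.trans (min_le_left _ _)⟩
      have t : min b g - h ≤ |g - h| := by linarith [le_abs_self (g - h), min_le_right b g]
      have t2 : a + ρ * (b - a) ≤ min b g := le_min m.2.le (not_lt.1 e)
      have t3 := min_le_left b g
      generalize min b g = b' at *
      refine ⟨?_, by nlinarith [abs_nonneg (g - h)]⟩
      have := mul_le_mul_of_nonneg_right r1 (sub_pos.2 o1).le
      have := mul_le_mul_of_nonneg_right (show (1 - lam k) * (b - a) ≤ b' - a by linarith)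
        (show 0 ≤ 1 + u (k - 1) by linarith)
      rw [u4] at j1
      nlinarith

omit hr
lemma psum (s τ) (f : ℝ → ℝ) (n : ℕ) :
    ((play s τ n).1.map f).sum = ∑ i ∈ Finset.range n, f (s (play s τ i).2) := by
  induction n with
  | zero => simp [play]
  | succ n ih => simp [play, ih, Finset.sum_range_succ, add_comm]

lemma low (s) (h : ∀ n, s (play s (hid N r) n).2 ≠ hid N r (play s (hid N r) n).1) :
    .ofReal ((play s (hid N r) N).1.map (|· - hid N r (play s (hid N r) N).1|)).sum ≤ pay s (hid N r) := by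
  have t : Tendsto (fun n => hid N r (play s (hid N r) n).1) atTop (𝓝 (hid N r (play s (hid N r) N).1)) := by
    refine tendsto_const_nhds.congr' ((eventually_ge_atTop N).mono fun n hn => ?_)
    induction n, hn using Nat.le_induction with
    | base => rfl
    | succ n hn ih => exact ih.trans (frz N _ [_] ((pl N r s n).1.symm ▸ hn)).symm
  have x : ∃ x, Tendsto (fun n => hid N r (play s (hid N r) n).1) atTop (𝓝 x) := ⟨_, t⟩
  rw [pay, if_neg (by simpa using h), dif_pos x, tendsto_nhds_unique x.choose_spec t, psum,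
    ENNReal.ofReal_sum_of_nonneg fun _ _ => abs_nonneg _]
  exact ENNReal.sum_le_tsum _

lemma meas (c e : ℕ → ℤ → ℝ) (n : ℕ) :
    Measurable (fun p : ℝ × (Fin n → ℝ) => st N (fun n k => c n k + e n k * p.1) (List.ofFn p.2)) ∧
    Measurable fun p : ℝ × (Fin n → ℝ) => hid N (fun n k => c n k + e n k * p.1) (List.ofFn p.2) := by
  have k : ∀ {n}, Measurable (fun p : ℝ × (Fin n → ℝ) => st N (fun n k => c n k + e n k * p.1) (List.ofFn p.2)) →
      Measurable fun p : ℝ × (Fin n → ℝ) => hid N (fun n k => c n k + e n k * p.1) (List.ofFn p.2) := fun h => by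
    simp only [hid, pos, List.length_ofFn]
    exact h.fst.add (((((measurable_of_countable _).comp h.snd.snd).add
      (((measurable_of_countable _).comp h.snd.snd).mul measurable_fst))).mul (h.snd.fst.sub h.fst))
  refine (fun h => ⟨h, k h⟩) ?_
  induction n with
  | zero => simp [st]
  | succ n ih =>
    have t : Measurable fun p : ℝ × (Fin (n + 1) → ℝ) => (p.1, fun i : Fin n => p.2 i.succ) := by fun_prop
    have a := ih.comp t
    have b := (k ih).comp t
    have g : Measurable fun p : ℝ × (Fin (n + 1) → ℝ) => p.2 0 := by fun_prop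
    simp only [List.ofFn_succ, st, upd, decide_eq_true_eq]
    simp only [List.length_ofFn]
    split_ifs
    · simp only [hid, List.length_ofFn] at b
      exact .ite (measurableSet_lt g b) ((a.fst.max g).prodMk (a.snd.fst.prodMk (a.snd.snd.add_const 1)))
        (a.fst.prodMk ((a.snd.fst.min g).prodMk (a.snd.snd.sub_const 1)))
    · exact a

theorem result (lam : ℤ → ℝ) (hl : ∀ k, lam k ∈ Ioo 0 1) (v : ℝ) (Z : Set ℝ) (hZ : Z.Countable)
    (hv : ∀ h ∈ Icc 0 1 \ Z, HasSum (fun n => |G lam h n 0 1 0 - h|) v)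
    (σ : Measure (List Bool → ℝ)) [IsProbabilityMeasure σ] :
    .ofReal v ≤ ⨆ (τ : ℝ → List ℝ → ℝ) (_ : ∀ ω ∈ Ioo 0 1, Legal (τ ω))
      (_ : ∀ n, Measurable fun p : ℝ × (Fin n → ℝ) => τ p.1 (List.ofFn p.2)),
      ∫⁻ s, (∫⁻ ω in Ioo 0 1, pay s (τ ω)) ∂σ := by
  obtain ⟨u, rfl, hu⟩ := exu hl (v := v) ⟨Z, hZ, fun h hh => by simpa using hv h ⟨Ioo_subset_Icc_self hh.1, hh.2⟩⟩
  have u0 := (hu 0).1
  have ub : ∀ k : ℤ, u k ≤ max (k : ℝ) 0 + u 0 := fun k => by
    induction k using Int.induction_on with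
    | zero => simp
    | succ k ih =>
      have := (hu (k + 1)).2.2.2
      rw [add_sub_cancel_right] at this
      rw [max_eq_left (by positivity)] at ih ⊢
      push_cast at *
      nlinarith [(hl (k + 1)).1, (hu k).1]
    | pred k ih =>
      have := (hu (-k - 1)).2.2.1
      have c : (0 : ℝ) ≤ k := k.cast_nonneg
      rw [sub_add_cancel] at this
      rw [max_eq_right (by push_cast; linarith)] at ih ⊢
      push_cast at *
      nlinarith [(hl (-k - 1)).2, (hu (-k)).1]
  refine ENNReal.le_of_forall_pos_le_add fun ε hε _ => ?_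
  obtain ⟨η, h0, h1, h2⟩ : ∃ η : ℝ, 0 < η ∧ η ≤ 1 / 2 ∧ η * (u 0 + 2) ≤ ε :=
    ⟨min (1 / 2) (ε / (u 0 + 2)), by positivity, min_le_left _ _, (le_div_iff₀ (by positivity)).1 (min_le_right _ _)⟩
  obtain ⟨N, hN⟩ := exists_nat_ge (4 * u 0 / η)
  rw [div_le_iff₀ h0] at hN
  obtain ⟨δ, d0, d1, d2⟩ : ∃ δ : ℝ, 0 < δ ∧ δ ≤ 1 / 2 ∧ N * δ ≤ η :=
    ⟨η / (N + 1), by positivity, (div_le_self h0.le (by simp)).trans h1, by
      rw [← mul_div_assoc, div_le_iff₀ (by positivity)]; linarith⟩
  have w : ∀ k : ℤ, 0 ≤ u (k + 1) - k - 1 := fun k => by have := (hu (k + 1)).2.1; push_cast at this; linarith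
  let c : ℕ → ℤ → ℝ := fun n k => if n < N then 1 - lam k else if 0 ≤ k then 1 else 0
  let e : ℕ → ℤ → ℝ := fun n k => if n < N then δ * lam k / (u (k + 1) - k) else if 0 ≤ k then -δ else δ
  have e1 : ∀ k, 0 < δ * lam k / (u (k + 1) - k) ∧ δ * lam k / (u (k + 1) - k) ≤ lam k := fun k =>
    ⟨div_pos (mul_pos d0 (hl k).1) (by linarith [w k]),
      (div_le_iff₀ (by linarith [w k])).2 (by nlinarith [w k, (hl k).1])⟩
  have hr : ∀ ω ∈ Ioo (0 : ℝ) 1, ∀ n k, c n k + e n k * ω ∈ Ioo (0 : ℝ) 1 := fun ω h n k => by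
    simp only [c, e]
    split_ifs <;> constructor <;> nlinarith [e1 k, (hl k).2, h.1, h.2]
  have e0 : ∀ n k, e n k ≠ 0 := fun n k => by
    simp only [e]; split_ifs; exacts [(e1 k).1.ne', by simp [d0.ne'], d0.ne']
  refine le_trans (b := ENNReal.ofReal (u 0 - ε) + ε) ?_ (add_le_add_left ?_ _)
  · rw [← ENNReal.ofReal_coe_nnreal]; exact le_trans (by simp) ENNReal.ofReal_add_le
  refine le_iSup_of_le (fun ω => hid N fun n k => c n k + e n k * ω) ?_
  refine le_iSup_of_le (fun ω h => leg N (hr ω h)) (le_iSup_of_le (fun n => (meas N c e n).2) ?_)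
  refine le_trans (by simp) (lintegral_mono (f := fun _ => .ofReal (u 0 - ε)) fun s => ?_)
  refine le_trans (by simp) (lintegral_mono_ae (f := fun _ => .ofReal (u 0 - ε)) ?_)
  have cb : (⋃ w, {ω | (st' N s w).1 < (st' N s w).2.1 ∧
      s w = pos N (fun n k => c n k + e n k * ω) w.length (st' N s w)}).Countable :=
    countable_iUnion fun w => Subsingleton.countable fun a ⟨h, ha⟩ b ⟨_, hb⟩ => by
      simpa [pos, e0, (sub_pos.2 h).ne'] using ha.symm.trans hb
  filter_upwards [ae_restrict_mem measurableSet_Ioo, ae_restrict_of_ae (cb.ae_notMem _)] with ω h hb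
  refine le_trans (ENNReal.ofReal_le_ofReal ?_) (low N s fun n t => hb (mem_iUnion.2 ⟨_, ?_, t.trans ?_⟩))
  · have ln := (pl N (fun n k => c n k + e n k * ω) s N).1
    obtain ⟨o1, o2, o3⟩ := ok N (hr ω h) (play s (hid N fun n k => c n k + e n k * ω) N).1
    have m := mid N (hr ω h) o1 N
    obtain ⟨i0, i⟩ := inv N (hr ω h) d0.le hu (fun n hn k => by
      simp only [c, e, hn, if_true, add_sub_cancel_left]
      refine ⟨by nlinarith [e1 k, h.1], ?_⟩
      rw [mul_right_comm, div_mul_cancel₀ _ (by linarith [w k])]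
      nlinarith [mul_pos d0 (hl k).1, h.2, (hl k).2]) _ ln.le
    obtain ⟨i1, i2⟩ := i _ ⟨m.1.le, m.2.le⟩
    simp only [hid, ln]  at i0 i1 i2 ⊢
    generalize List.sum (α := ℝ) _ = P at i1 i2 ⊢
    simp only [pos, min_self, c, e, lt_irrefl, if_false] at i1 i2
    generalize st N _ _ = x at *
    obtain ⟨a, b, k⟩ := x
    have := ub k
    simp only [abs_le] at *
    obtain ⟨L, rfl⟩ : ∃ L, b = a + L := ⟨b - a, by ring⟩
    have L0 : 0 < L := by linarith
    have q : 0 < δ * ω ∧ δ * ω ≤ δ := ⟨mul_pos d0 h.1, by nlinarith [h.2]⟩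
    simp only [add_sub_cancel_left] at i1 i2
    have N0 : (0 : ℝ) ≤ N := N.cast_nonneg
    have ε0 : (0 : ℝ) < ε := hε
    split_ifs at i1 i2 with k0
    · have k1 : (0 : ℝ) ≤ k := by exact_mod_cast k0
      rw [max_eq_left k1] at this
      rw [neg_mul] at i1 i2
      generalize δ * ω = z at *
      rcases le_total L η with c | c
      · nlinarith [mul_le_mul_of_nonneg_left this L0.le, mul_le_mul_of_nonneg_right c u0,
          mul_le_mul i0.2 (show z * L ≤ δ by nlinarith) (by nlinarith) N0]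
      · nlinarith [mul_nonneg (sub_nonneg.2 i0.2) (mul_pos q.1 L0).le, mul_nonneg k1 (show 0 ≤ (1 - z) * L by nlinarith),
          mul_le_mul_of_nonneg_left (show η / 2 ≤ (1 - z) * L by nlinarith) N0]
    · have k1 : (k : ℝ) ≤ 0 := by exact_mod_cast (not_le.1 k0).le
      rw [max_eq_right k1] at this
      generalize δ * ω = z at *
      rcases le_total L η with c | c
      · nlinarith [mul_le_mul_of_nonneg_left this L0.le, mul_le_mul_of_nonneg_right c u0,
          mul_le_mul (neg_le.1 i0.1) (show z * L ≤ δ by nlinarith) (by nlinarith) N0]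
      · nlinarith [mul_nonneg (neg_le_iff_add_nonneg'.1 i0.1) (mul_pos q.1 L0).le,
          mul_nonneg (neg_nonneg.2 k1) (show 0 ≤ (1 - z) * L by nlinarith),
          mul_le_mul_of_nonneg_left (show η / 2 ≤ (1 - z) * L by nlinarith) N0]
  · exact (pl N _ s n).2.2 ▸ (ok N (hr ω h) _).1
  · rw [hid, (pl N _ s n).1, (pl N _ s n).2.1, (pl N _ s n).2.2]

end Pool.Agent.Results.MP_b21e06_an.Mobile
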